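import Mathlib
import Pool.Agent.TP975.RP.Mg4

/-!
The prime values of almost all polynomials in ALL short segments of ALL arithmetic progressions.
-/

set_option autoImplicit false

namespace Pool.Agent.Results.MP_9cfc0a_nt.EveryShortProgression

open Finset

/-- the value at `t` of the polynomial with the coefficients `f 0, ..., f d` -/
def value {d : ℕ} (f : Fin (d + 1) → ℤ) (t : ℤ) : ℤ := ∑ c, f c * t ^ (c : ℕ)

/-- the polynomials of degree at most `d` with coefficients in `[-H, H]` -/
noncomputable def box (d H : ℕ) : Finset (Fin (d + 1) → ℤ) := Fintype.piFinset fun _ => Icc (-(H : ℤ)) H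

/-- the number of `x < m ≤ x + h` with `m ≡ c` modulo `q` for which `|f(m)|` is a prime -/
def primesIn {d : ℕ} (f : Fin (d + 1) → ℤ) (q c x h : ℕ) : ℕ :=
  ((Ioc x (x + h)).filter (fun m : ℕ => m ≡ c [MOD q] ∧ (value f (m : ℤ)).natAbs.Prime)).card

/-- the number of `x < m ≤ x + h` for which `|f(m)|` is a prime -/
def primes {d : ℕ} (f : Fin (d + 1) → ℤ) (x h : ℕ) : ℕ :=
  ((Ioc x (x + h)).filter (fun m : ℕ => (value f (m : ℤ)).natAbs.Prime)).card

/-- the residue classes modulo `q` on which the values of `f` are coprime to `q` -/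
def classes {d : ℕ} (f : Fin (d + 1) → ℤ) (q : ℕ) : Finset ℕ :=
  (Icc 1 q).filter (fun c : ℕ => (value f (c : ℤ)).natAbs.Coprime q)

/-- the classes are those of the library -/
lemma classes_eq {d : ℕ} (f : Fin (d + 1) → ℤ) (q : ℕ) : classes f q = Pool.Agent.TP975.RP.cls f q := by
  ext c
  rw [Pool.Agent.TP975.RP.mem_cls]
  unfold classes
  rw [mem_filter]
  apply and_congr_right
  intro _
  unfold Pool.Agent.TP975.RP.Cp
  constructor
  · intro h p hp hpq hdv
    have h1 : p ∣ (value f (c : ℤ)).natAbs := Int.natCast_dvd.1 hdv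
    exact Nat.not_coprime_of_dvd_of_dvd hp.one_lt h1 hpq h
  · intro h
    apply Nat.coprime_of_dvd
    intro p hp h1 h2
    exact h p hp h2 (Int.natCast_dvd.2 h1)

/-- the counting functions and the differences of those of the library -/
lemma card_Ioc_filter (P : ℕ → Prop) [DecidablePred P] (x h : ℕ) :
    ((((Icc 1 (x + h)).filter P).card : ℕ) : ℝ) - (((Icc 1 x).filter P).card : ℕ) =
      ((((Ioc x (x + h)).filter P).card : ℕ) : ℝ) := by
  have h1 : (Icc 1 (x + h)).filter P = (Icc 1 x).filter P ∪ (Ioc x (x + h)).filter P := by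
    rw [← filter_union]
    congr 1
    ext m
    rw [mem_union, mem_Icc, mem_Icc, mem_Ioc]
    omega
  have h2 : Disjoint ((Icc 1 x).filter P) ((Ioc x (x + h)).filter P) := by
    rw [disjoint_left]
    intro m hm hm'
    rw [mem_filter, mem_Icc] at hm
    rw [mem_filter, mem_Ioc] at hm'
    omega
  rw [h1, card_union_of_disjoint h2]
  push_cast
  ring

open Classical in
/-- For almost all polynomials `f` of degree at most `d`, the primes `|f(m)|` are equidistributed, in ALL intervals
`(x, x + h]` with `x + h ≤ (log H)^A` and for ALL moduli `q` with `q^(d + 2) (x + h) (log H)^(d + ε) ≤ h^(d + 1)`, among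
the residue classes modulo `q` on which the values of `f` are coprime to `q`. -/
theorem result (d A B : ℕ) (hd : 2 ≤ d) (ε : ℝ) (hε : 0 < ε) : ∃ H₀ : ℕ, ∀ H : ℕ, H₀ ≤ H →
    (((box d H).filter (fun f => ∃ q x h c : ℕ, 1 ≤ q ∧ c ∈ classes f q ∧ ((x + h : ℕ) : ℝ) ≤ Real.log H ^ A ∧
      (q : ℝ) ^ (d + 2) * ((x + h : ℕ) : ℝ) * Real.log H ^ ((d : ℝ) + ε) ≤ (h : ℝ) ^ (d + 1) ∧
      h / (q * Real.log H * Real.log (Real.log H) ^ B) <
        |(primesIn f q c x h : ℝ) - (primes f x h : ℝ) / (classes f q).card|)).card : ℝ) ≤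
      (box d H).card / Real.log (Real.log H) ^ B := by
  obtain ⟨H0, h0⟩ := Pool.Agent.TP975.RP.mg_main d A B hd ε hε
  refine ⟨H0, fun H hH => ?_⟩
  refine le_trans (le_of_eq ?_) (h0 H hH)
  congr 1
  congr 1
  apply filter_congr
  intro f _
  have e1 : ∀ q c x h : ℕ, (Pool.Agent.TP975.RP.piq f q c (x + h) : ℝ) - Pool.Agent.TP975.RP.piq f q c x =
      primesIn f q c x h := by
    intro q c x h
    exact card_Ioc_filter (fun m : ℕ => m % q = c % q ∧ (Pool.Agent.TP975.RP.ev f (m : ℤ)).natAbs.Prime) x h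
  have e2 : ∀ x h : ℕ, primesIn f 1 1 x h = primes f x h := by
    intro x h
    unfold primesIn primes
    congr 1
    apply filter_congr
    intro m _
    constructor
    · intro h
      exact h.2
    · intro h
      exact ⟨Nat.modEq_one, h⟩
  simp only [e1, e2, classes_eq]

end Pool.Agent.Results.MP_9cfc0a_nt.EveryShortProgression
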